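import Mathlib
import Pool.Agent.N432.SignedCrit

/-!
The signed `[0,s]`-critical number of every cyclic group: `χ_±(ℤ_n,[0,s]) = v_±(n,s) + 1` for all
positive integers `n` and `s`.
-/

set_option autoImplicit false

namespace Pool.Agent.Results.MP_c7e63d_co.CriticalNumber

/-- The `h`-fold signed sumset `h_± A`: all sums `∑_{a ∈ A} λ_a a` with integer coefficients
whose absolute values add up to `h`. -/
def signedSumset {n : ℕ} (h : ℕ) (A : Finset (ZMod n)) : Set (ZMod n) :=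
  {x | ∃ l : ZMod n → ℤ, ∑ a ∈ A, |l a| = (h : ℤ) ∧ ∑ a ∈ A, l a • a = x}

/-- The union `[0,s]_± A` of the signed sumsets `h_± A` with `0 ≤ h ≤ s`. -/
def signedUpTo {n : ℕ} (s : ℕ) (A : Finset (ZMod n)) : Set (ZMod n) :=
  {x | ∃ h : ℕ, h ≤ s ∧ x ∈ signedSumset h A}

/-- The numbers `m` such that every subset `A` of `ℤ_n` with at least `m` elements satisfies
`[0,s]_± A = ℤ_n`. The critical number `χ_±(ℤ_n,[0,s])` is the least element of this set. -/
def coveringSizes (n s : ℕ) : Set ℕ :=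
  {m | ∀ A : Finset (ZMod n), m ≤ A.card → signedUpTo s A = Set.univ}

/-- The numbers `(2⌊(d-2)/(2h)⌋+1)·(n/d)`, where `d` is a positive divisor of `n`. Their maximum
is `v_±(n,h)`. -/
def divisorValues (n h : ℕ) : Set ℤ :=
  {z | ∃ d : ℕ, d ∈ n.divisors ∧ z = (2 * ⌊((d : ℚ) - 2) / (2 * h)⌋ + 1) * ((n / d : ℕ) : ℤ)}

theorem mem_signedUpTo {n : ℕ} (s : ℕ) (A : Finset (ZMod n)) (x : ZMod n) :
    x ∈ signedUpTo s A ↔ ∃ l : ZMod n → ℤ, ∑ a ∈ A, |l a| ≤ (s : ℤ) ∧ ∑ a ∈ A, l a • a = x := by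
  constructor
  · rintro ⟨h, hh, l, h1, h2⟩
    exact ⟨l, by rw [h1]; exact_mod_cast hh, h2⟩
  · rintro ⟨l, h1, h2⟩
    have h0 : 0 ≤ ∑ a ∈ A, |l a| := Finset.sum_nonneg fun a _ => abs_nonneg _
    refine ⟨(∑ a ∈ A, |l a|).toNat, by omega, l, ?_, h2⟩
    rw [Int.toNat_of_nonneg h0]

theorem floor_eq (d h : ℕ) :
    ⌊((d : ℚ) - 2) / (2 * h)⌋ = ((d : ℤ) - 2) / (2 * h) := by
  have h1 : ((d : ℚ) - 2) / (2 * h) = (((d : ℤ) - 2 : ℤ) : ℚ) / ((2 * h : ℕ) : ℚ) := by
    push_cast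
    ring
  rw [h1, Rat.floor_intCast_div_natCast]
  push_cast
  rfl

theorem divisorValues_eq (n h : ℕ) [NeZero n] :
    divisorValues n h = {z | ∃ d : ℕ, d ∣ n ∧ z = N432.SignedCrit.val n h d} := by
  ext z
  simp only [divisorValues, Set.mem_setOf_eq, Nat.mem_divisors, floor_eq, N432.SignedCrit.val]
  constructor
  · rintro ⟨d, ⟨h1, _⟩, h2⟩
    exact ⟨d, h1, h2⟩
  · rintro ⟨d, h1, h2⟩
    exact ⟨d, ⟨h1, NeZero.ne n⟩, h2⟩

/-- For all positive integers `n` and `s`, the least `m` such that `[0,s]_± A = ℤ_n` for every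
`A ⊆ ℤ_n` with `|A| ≥ m` is `v_±(n,s) + 1`, where `v_±(n,s)` is the maximum of
`(2⌊(d-2)/(2s)⌋+1)·(n/d)` over the positive divisors `d` of `n`. -/
theorem result (n s : ℕ) (hn : 0 < n) (hs : 0 < s) :
    ∃ (χ : ℕ) (v : ℤ), IsLeast (coveringSizes n s) χ ∧ IsGreatest (divisorValues n s) v ∧
      (χ : ℤ) = v + 1 := by
  haveI : NeZero n := ⟨hn.ne'⟩
  have hfin : (divisorValues n s).Finite := by
    have : divisorValues n s = (fun d : ℕ => (2 * ⌊((d : ℚ) - 2) / (2 * s)⌋ + 1) *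
        ((n / d : ℕ) : ℤ)) '' (n.divisors : Set ℕ) := by
      ext z
      simp only [divisorValues, Set.mem_setOf_eq, Set.mem_image, Finset.mem_coe]
      constructor
      · rintro ⟨d, h1, h2⟩
        exact ⟨d, h1, h2.symm⟩
      · rintro ⟨d, h1, h2⟩
        exact ⟨d, h1, h2.symm⟩
    rw [this]
    exact (Finset.finite_toSet _).image _
  have hne : (divisorValues n s).Nonempty :=
    ⟨_, n, Nat.mem_divisors.2 ⟨dvd_rfl, hn.ne'⟩, rfl⟩
  obtain ⟨v, hv⟩ : ∃ v, IsGreatest (divisorValues n s) v := by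
    obtain ⟨v, h1, h2⟩ := Set.exists_max_image (divisorValues n s) id hfin hne
    exact ⟨v, h1, fun z hz => h2 z hz⟩
  have hv' := hv
  rw [divisorValues_eq] at hv'
  -- the maximum is at least `-1`
  have hv1 : 0 ≤ v + 1 := by
    have h1 : N432.SignedCrit.val n s n ≤ v := hv'.2 ⟨n, dvd_rfl, rfl⟩
    unfold N432.SignedCrit.val at h1
    rw [Nat.div_self hn] at h1
    have h2 : -1 ≤ ((n : ℤ) - 2) / (2 * s) := by
      rw [Int.le_ediv_iff_mul_le (by positivity)]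
      have : (1 : ℤ) ≤ s := by exact_mod_cast hs
      have : (1 : ℤ) ≤ n := by exact_mod_cast hn
      linarith
    push_cast at h1
    omega
  refine ⟨(v + 1).toNat, v, ⟨?_, ?_⟩, hv, Int.toNat_of_nonneg hv1⟩
  · intro A hA
    rw [Set.eq_univ_iff_forall]
    intro x
    by_contra hx
    rw [mem_signedUpTo] at hx
    obtain ⟨d, hd, h1⟩ := N432.SignedCrit.upper hs A hx
    have h2 : N432.SignedCrit.val n s d ≤ v := hv'.2 ⟨d, hd, rfl⟩
    omega
  · intro m hm
    rcases lt_or_ge v 0 with h | h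
    · omega
    · obtain ⟨d, hd, h1⟩ := hv'.1
      obtain ⟨A, h2, x, hx⟩ := N432.SignedCrit.lower hs hd (h1 ▸ h)
      by_contra hcon
      push Not at hcon
      have h3 : m ≤ A.card := by omega
      have h4 := hm A h3
      apply hx
      have h5 : x ∈ signedUpTo s A := by rw [h4]; exact Set.mem_univ x
      rw [mem_signedUpTo] at h5
      exact h5

end Pool.Agent.Results.MP_c7e63d_co.CriticalNumber
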